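import Pool.Agent.Lib.helper28.ZpD

namespace Pool.Agent.H.MP_4d0e60_an

open Pool.Agent.Lib.helper28.Zp Finset

variable {n p : ℕ} [NeZero p]

noncomputable def cl (u : ℝ) : ℝ := min (max u 0) 1

theorem cl_cont : Continuous cl := by unfold cl; fun_prop

theorem cl_nonneg (u : ℝ) : 0 ≤ cl u := le_min (le_max_right _ _) zero_le_one

theorem cl_le (u : ℝ) : cl u ≤ 1 := min_le_right _ _

theorem cl_hi {u : ℝ} (h : 1 ≤ u) : cl u = 1 := min_eq_right (le_max_of_le_left h)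

theorem cl_lo {u : ℝ} (h : u ≤ 0) : cl u = 0 := by
  unfold cl; rw [max_eq_right h, min_eq_left zero_le_one]

theorem cl_mid {u : ℝ} (h : 0 ≤ u) (h1 : u ≤ 1) : cl u = u := by
  unfold cl; rw [max_eq_left h, min_eq_left h1]

theorem cl_mono : Monotone cl := fun _ _ h => min_le_min (max_le_max h le_rfl) le_rfl

theorem pos_of_cl {u : ℝ} (h : cl u ≠ 0) : 0 < u := not_le.1 fun e => h (cl_lo e)

/-- how far the arc of the marker of level `i` sitting `ρ` steps before `a` extends beyond `a` -/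
noncomputable def ex (x : E n p) (a : ZMod p) (i : Fin (n + 1)) (ρ : ℕ) : ℝ :=
  (p + 1) * (n + 1) * x (i, a - ρ) - 1 - ρ

/-- ownership of the position `a` -/
noncomputable def ow (x : E n p) (a : ZMod p) (i : Fin (n + 1)) (ρ : ℕ) : ℝ :=
  cl (ex x a i ρ) * ∏ j ∈ univ.filter (· < i), ∏ ρ' ∈ range p, cl (-ex x a j ρ')

/-- a fractional matching of the cycle -/
noncomputable def s (x : E n p) (a : ZMod p) : ℝ :=
  1 - ∏ i, ∏ ρ ∈ (range (p - 1)).filter Even, (1 - ow x a i ρ * ow x (a + 1) i (ρ + 1))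

omit [NeZero p] in
theorem ex_sh (x : E n p) (a : ZMod p) : ex (sh x) (a + 1) = ex x a := by
  funext i ρ
  simp only [ex, sh]
  congr 5
  ring

omit [NeZero p] in
theorem ow_sh (x : E n p) (a : ZMod p) : ow (sh x) (a + 1) = ow x a := by
  funext i ρ
  simp only [ow, ex_sh]

omit [NeZero p] in
theorem s_sh (x : E n p) (a : ZMod p) : s (sh x) (a + 1) = s x a := by
  simp only [s, ow_sh]

omit [NeZero p] in
theorem s_cont (a : ZMod p) : Continuous fun x : E n p => s x a := by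
  have := cl_cont
  unfold s ow ex
  fun_prop

omit [NeZero p] in
theorem ow_01 (x : E n p) (a : ZMod p) (i : Fin (n + 1)) (ρ : ℕ) :
    0 ≤ ow x a i ρ ∧ ow x a i ρ ≤ 1 := by
  have h0 : ∀ j, 0 ≤ ∏ ρ' ∈ range p, cl (-ex x a j ρ') := fun j =>
    prod_nonneg fun _ _ => cl_nonneg _
  exact ⟨mul_nonneg (cl_nonneg _) (prod_nonneg fun j _ => h0 j),
    mul_le_one₀ (cl_le _) (prod_nonneg fun j _ => h0 j) (prod_le_one (fun j _ => h0 j)
      fun j _ => prod_le_one (fun _ _ => cl_nonneg _) fun _ _ => cl_le _)⟩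

omit [NeZero p] in
theorem s_01 (x : E n p) (a : ZMod p) : 0 ≤ s x a ∧ s x a ≤ 1 := by
  have h : ∀ i ρ, 0 ≤ 1 - ow x a i ρ * ow x (a + 1) i (ρ + 1) ∧
      1 - ow x a i ρ * ow x (a + 1) i (ρ + 1) ≤ 1 := fun i ρ =>
    ⟨sub_nonneg.2 (mul_le_one₀ (ow_01 _ _ _ _).2 (ow_01 _ _ _ _).1 (ow_01 _ _ _ _).2),
      sub_le_self _ (mul_nonneg (ow_01 _ _ _ _).1 (ow_01 _ _ _ _).1)⟩
  exact ⟨sub_nonneg.2 (prod_le_one (fun i _ => prod_nonneg fun ρ _ => (h i ρ).1)
    fun i _ => prod_le_one (fun ρ _ => (h i ρ).1) fun ρ _ => (h i ρ).2),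
    sub_le_self _ (prod_nonneg fun i _ => prod_nonneg fun ρ _ => (h i ρ).1)⟩

omit [NeZero p] in
theorem ne_of_ex {x : E n p} {a : ZMod p} {i : Fin (n + 1)} {ρ : ℕ} (h : -1 < ex x a i ρ) :
    x (i, a - ρ) ≠ 0 := fun e => by
  have : (0 : ℝ) ≤ ρ := Nat.cast_nonneg ρ
  simp only [ex, e, mul_zero] at h
  linarith

theorem excl {x : E n p} (hx : x ∈ S n p n) {a : ZMod p} {i i' : Fin (n + 1)} {ρ ρ' : ℕ}
    (hρ : ρ < p) (hρ' : ρ' < p) (h : ow x a i ρ ≠ 0) (h' : ow x a i' ρ' ≠ 0) : ρ = ρ' := by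
  have key : ∀ {i i' : Fin (n + 1)} {ρ ρ' : ℕ}, ρ < p → ow x a i ρ ≠ 0 → ow x a i' ρ' ≠ 0 →
      ¬ i < i' := by
    intro i i' ρ ρ' hρ h h' hi
    have e1 := pos_of_cl (left_ne_zero_of_mul h)
    have e2 := pos_of_cl (prod_ne_zero_iff.1 (prod_ne_zero_iff.1 (right_ne_zero_of_mul h') i
      (by simpa using hi)) ρ (mem_range.2 hρ))
    linarith
  have e : i = i' := le_antisymm (not_lt.1 (key hρ' h' h)) (not_lt.1 (key hρ h h'))
  subst e
  have e1 := ne_of_ex (lt_trans (by norm_num) (pos_of_cl (left_ne_zero_of_mul h)))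
  have e2 := ne_of_ex (lt_trans (by norm_num) (pos_of_cl (left_ne_zero_of_mul h')))
  have e3 : a - ρ = a - ρ' := by_contra fun e => mul_ne_zero e1 e2 (hx.2.2.1 i _ _ e)
  have e4 := congrArg ZMod.val (sub_right_injective e3)
  rwa [ZMod.val_cast_of_lt hρ, ZMod.val_cast_of_lt hρ'] at e4

theorem s_mul {x : E n p} (hx : x ∈ S n p n) (a : ZMod p) : s x a * s x (a + 1) = 0 := by
  have key : ∀ a, s x a ≠ 0 → ∃ i ρ, ρ < p - 1 ∧ Even ρ ∧ ow x a i ρ ≠ 0 ∧
      ow x (a + 1) i (ρ + 1) ≠ 0 := by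
    intro a h
    by_contra hn
    push Not at hn
    refine h (sub_eq_zero.2 (prod_eq_one fun i _ => prod_eq_one fun ρ hρ => ?_).symm)
    have hρ := mem_filter.1 hρ
    by_cases e : ow x a i ρ = 0
    · simp [e]
    · simp [hn i ρ (mem_range.1 hρ.1) hρ.2 e]
  by_contra h
  obtain ⟨i, ρ, h1, h2, -, h3⟩ := key a (left_ne_zero_of_mul h)
  obtain ⟨i', ρ', h4, h5, h6, -⟩ := key (a + 1) (right_ne_zero_of_mul h)
  have := excl hx (by omega) (by omega) h3 h6
  rw [← this] at h5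
  exact Nat.even_add_one.1 h5 h2

def Own (x : E n p) (a : ZMod p) (i : Fin (n + 1)) (ρ : ℕ) : Prop :=
  ρ < p ∧ 1 ≤ ex x a i ρ ∧ ∀ j < i, ∀ ρ' < p, ex x a j ρ' ≤ -1

def Fine (x : E n p) (a : ZMod p) : Prop :=
  (∀ i, x (i, a + 1) = 0) ∧ ∀ i, ∀ ρ < p, ex x a i ρ ≤ -1 ∨ 1 ≤ ex x a i ρ

omit [NeZero p] in
theorem Own.ow {x : E n p} {a : ZMod p} {i : Fin (n + 1)} {ρ : ℕ} (h : Own x a i ρ) :
    ow x a i ρ = 1 := by
  rw [MP_4d0e60_an.ow, cl_hi h.2.1, one_mul]
  refine prod_eq_one fun j hj => prod_eq_one fun ρ' hρ => cl_hi ?_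
  have := h.2.2 j (by simpa using hj) ρ' (mem_range.1 hρ)
  linarith

omit [NeZero p] in
theorem ex_succ (x : E n p) (a : ZMod p) (i : Fin (n + 1)) (ρ : ℕ) :
    ex x (a + 1) i (ρ + 1) = ex x a i ρ - 1 := by
  simp only [ex]
  rw [show a + 1 - ((ρ + 1 : ℕ) : ZMod p) = a - ρ by push_cast; ring]
  push_cast
  ring

omit [NeZero p] in
theorem Own.step {x : E n p} {a : ZMod p} {i : Fin (n + 1)} {ρ : ℕ} (h : Own x a i ρ)
    (h1 : Fine x a) (h2 : Fine x (a + 1)) : Own x (a + 1) i (ρ + 1) := by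
  have hρ : ρ + 1 < p := by
    refine lt_of_le_of_ne h.1 fun e => ne_of_ex (lt_of_lt_of_le (by norm_num) h.2.1) ?_
    have : (ρ : ZMod p) + 1 = 0 := by rw [← Nat.cast_succ, Nat.succ_eq_add_one, e, ZMod.natCast_self]
    rw [show a - ρ = a + 1 by linear_combination -this]
    exact h1.1 i
  refine ⟨hρ, (h2.2 i _ hρ).resolve_left ?_, fun j hj ρ' hρ' => ?_⟩
  · rw [ex_succ]; linarith [h.2.1]
  · rcases ρ' with _ | ρ'
    · simp [ex, h1.1 j]
    · rw [ex_succ]; linarith [h.2.2 j hj ρ' (by omega)]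

theorem one_c {x : E n p} (hx : x ∈ S n p n) (i : Fin (n + 1)) :
    ∃ c0, ∀ c, c ≠ c0 → x (i, c) = 0 := by
  by_cases h : ∀ c, x (i, c) = 0
  · exact ⟨0, fun c _ => h c⟩
  · push Not at h
    obtain ⟨c0, h0⟩ := h
    exact ⟨c0, fun c hc => (mul_eq_zero.1 (hx.2.2.1 i c c0 hc)).resolve_right h0⟩

theorem exists_big {x : E n p} (hx : x ∈ S n p n) : ∃ i c, 1 ≤ (n + 1) * x (i, c) := by
  choose c hc using one_c hx
  by_contra h
  push Not at h
  have e := hx.2.1
  rw [Fintype.sum_prod_type, sum_congr rfl fun i _ =>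
    sum_eq_single (c i) (fun b _ hb => hc i b hb) (by simp)] at e
  have := sum_lt_sum_of_nonempty (univ_nonempty (α := Fin (n + 1))) fun i _ => h i (c i)
  rw [← mul_sum, e] at this
  simp at this

theorem exists_own {x : E n p} (hx : x ∈ S n p n) {a : ZMod p} (h : Fine x a) :
    ∃ i ρ, Own x a i ρ := by
  classical
  have hne : (univ.filter fun i => ∃ ρ < p, 1 ≤ ex x a i ρ).Nonempty := by
    obtain ⟨i, c, hc⟩ := exists_big hx
    refine ⟨i, mem_filter.2 ⟨mem_univ _, (a - c).val, ZMod.val_lt _, ?_⟩⟩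
    have : ((a - c).val : ℝ) + 1 ≤ p := by exact_mod_cast ZMod.val_lt (a - c)
    have p0 : (0 : ℝ) ≤ p := Nat.cast_nonneg p
    simp only [ex, ZMod.natCast_val, ZMod.cast_id', id_eq, sub_sub_cancel] at this ⊢
    nlinarith
  obtain ⟨ρ, hρ, h1⟩ := (mem_filter.1 (min'_mem _ hne)).2
  refine ⟨_, ρ, hρ, h1, fun j hj ρ' hρ' => (h.2 j ρ' hρ').resolve_right fun e => ?_⟩
  exact not_le.2 hj (min'_le _ j (mem_filter.2 ⟨mem_univ _, ρ', hρ', e⟩))

theorem s_one {x : E n p} (hx : x ∈ S n p n) {a : ZMod p} (h0 : Fine x a) (h1 : Fine x (a + 1))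
    (h2 : Fine x (a + 1 + 1)) : s x a = 1 ∨ s x (a + 1) = 1 := by
  obtain ⟨i, ρ, o0⟩ := exists_own hx h0
  have o1 := o0.step h0 h1
  have o2 := o1.step h1 h2
  have key : ∀ a ρ, Even ρ → Own x a i ρ → Own x (a + 1) i (ρ + 1) → s x a = 1 := by
    intro a ρ he o o'
    refine sub_eq_self.2 (prod_eq_zero (mem_univ i) (prod_eq_zero (i := ρ)
      (mem_filter.2 ⟨mem_range.2 (by have := o'.1; omega), he⟩) ?_))
    rw [o.ow, o'.ow]; norm_num
  by_cases he : Even ρ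
  · exact Or.inl (key _ _ he o0 o1)
  · exact Or.inr (key _ _ (Nat.even_add_one.2 he) o1 o2)

theorem few_bad {x : E n p} (hx : x ∈ S n p n) :
    ∃ B : Finset (ZMod p), B.card ≤ 3 * (n + 1) ∧ ∀ a ∉ B, Fine x a := by
  classical
  choose c hc using one_c hx
  let m : Fin (n + 1) → ℕ := fun i => ⌈(p + 1) * (n + 1) * x (i, c i)⌉₊
  refine ⟨univ.biUnion fun i => {c i - 1, c i + m i - 1, c i + m i - 2}, ?_, fun a ha => ?_⟩
  · refine (card_biUnion_le_card_mul _ _ 3 fun i _ => card_le_three).trans ?_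
    simp [mul_comm]
  simp only [mem_biUnion, mem_univ, true_and, not_exists, mem_insert, mem_singleton,
    not_or] at ha
  refine ⟨fun i => hc i _ fun e => (ha i).1 (by rw [← e]; ring), fun i ρ _ => ?_⟩
  by_contra hn
  push Not at hn
  have e : a - ρ = c i := by_contra fun e => ne_of_ex hn.1 (hc i _ e)
  simp only [ex, e] at hn
  have h1 : ρ < m i := Nat.lt_ceil.2 (by linarith [hn.1])
  have h2 : m i ≤ ρ + 2 := Nat.ceil_le.2 (by push_cast; linarith [hn.2])
  rcases (by omega : m i = ρ + 1 ∨ m i = ρ + 2) with h | h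
  · exact (ha i).2.1 (by rw [h, ← e]; push_cast; ring)
  · exact (ha i).2.2 (by rw [h, ← e]; push_cast; ring)

/-- the unmatched part of the position `a` -/
noncomputable def ell (x : E n p) (a : ZMod p) : ℝ := 1 - s x a - s x (a - 1)

theorem s_mul' {x : E n p} (hx : x ∈ S n p n) (a : ZMod p) : s x (a - 1) * s x a = 0 := by
  simpa using s_mul hx (a - 1)

theorem ell_nonneg {x : E n p} (hx : x ∈ S n p n) (a : ZMod p) : 0 ≤ ell x a := by
  have := s_01 x a
  have := s_01 x (a - 1)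
  rcases mul_eq_zero.1 (s_mul' hx a) with h | h <;> simp only [ell, h] <;> linarith

theorem sum_ell {x : E n p} (hx : x ∈ S n p n) : ∑ a, ell x a ≤ 9 * (n + 1) := by
  classical
  obtain ⟨B, hB, hF⟩ := few_bad hx
  let B' := B.image (· + 1) ∪ B ∪ B.image (· - 1)
  have h1 : B'.card ≤ 9 * (n + 1) := by
    have := card_union_le (B.image (· + 1) ∪ B) (B.image (· - 1))
    have := card_union_le (B.image (· + 1)) B
    have := card_image_le (s := B) (f := (· + 1))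
    have := card_image_le (s := B) (f := (· - 1))
    simp only [B']
    omega
  have h2 : ∀ a ∉ B', ell x a = 0 := by
    intro a ha
    simp only [B', mem_union, mem_image, not_or, not_exists, not_and] at ha
    have := s_one hx (a := a - 1) (hF _ fun e => ha.1.1 _ e (by ring))
      (hF _ (by simpa using ha.1.2)) (hF _ fun e => ha.2 _ e (by ring))
    have e := s_mul' hx a
    rw [sub_add_cancel] at this
    rcases this with h | h <;> rw [h] at e <;> simp only [one_mul, mul_one] at e <;>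
      simp [ell, h, e]
  rw [← sum_subset (subset_univ B') fun a _ ha => h2 a ha]
  refine (sum_le_card_nsmul B' _ 1 fun a _ => ?_).trans ?_
  · have := s_01 x a
    have := s_01 x (a - 1)
    simp only [ell]
    linarith
  · rw [nsmul_eq_mul, mul_one]
    exact_mod_cast h1

end Pool.Agent.H.MP_4d0e60_an
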