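import Pool.Agent.H.MP_4d0e60_an.A

namespace Pool.Agent.H.MP_4d0e60_an

open Pool.Agent.Lib.helper28.Zp Finset

variable {n p : ℕ} [NeZero p]

noncomputable def w (x : E n p) (a : ZMod p) : ℝ := |ell x a| + 1 / 100

noncomputable def lam (x : E n p) (a : ZMod p) : ℝ := p * w x a / ∑ c, w x c

noncomputable def hh (x : E n p) (a : ZMod p) : ℝ :=
  (∑ ρ ∈ range p, ρ * (lam x (a + ρ) - 1)) / p

/-- the time change -/
noncomputable def psi (x : E n p) (b : ℕ) : ℝ := b - 3 * p + hh x b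

def p0 (σ : ℝ) : Fin 3 → ℝ := ![1 - 2 * σ, 0, σ * (1 - σ)]

def d0 (σ' σ v : ℝ) : Fin 3 → ℝ :=
  ![v * (-2 * (1 - σ - σ')), v * (1 - v) * (1 - σ - σ'), v * (-(σ * (1 - σ)) - σ' * (1 - σ'))]

noncomputable def P (x : E n p) (j : Fin 3) (b : ℕ) : ℝ := (-1) ^ b * p0 (s x (b - 1)) j

noncomputable def D (x : E n p) (j : Fin 3) (b : ℕ) (v : ℝ) : ℝ :=
  (-1) ^ b * d0 (s x (b - 1)) (s x b) v j

noncomputable def vv (x : E n p) (τ : ℝ) (b : ℕ) : ℝ := cl ((τ - psi x b) / lam x b)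

noncomputable def F (x : E n p) (τ : ℝ) (j : Fin 3) : ℝ :=
  P x j 0 + ∑ b ∈ range (6 * p), D x j b (vv x τ b)

theorem pp : (0 : ℝ) < p := by exact_mod_cast Nat.pos_of_ne_zero (NeZero.ne p)

omit [NeZero p] in
theorem w_pos (x : E n p) (a : ZMod p) : 0 < w x a := by unfold w; positivity

theorem W_pos (x : E n p) : 0 < ∑ c, w x c := sum_pos (fun c _ => w_pos x c) univ_nonempty

theorem lam_pos (x : E n p) (a : ZMod p) : 0 < lam x a :=
  div_pos (mul_pos pp (w_pos x a)) (W_pos x)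

theorem sum_lam (x : E n p) : ∑ a, lam x a = p := by
  simp only [lam]
  rw [← sum_div, ← mul_sum, mul_div_assoc, div_self (W_pos x).ne', mul_one]

theorem sum_cyc (g : ZMod p → ℝ) (a : ZMod p) : ∑ ρ ∈ range p, g (a + ρ) = ∑ c, g c := by
  refine sum_nbij' (fun ρ => a + ρ) (fun c => (c - a).val) (fun _ _ => mem_univ _)
    (fun c _ => mem_range.2 (ZMod.val_lt _)) (fun ρ hρ => ?_) (fun c _ => by simp) fun _ _ => rfl
  simp [ZMod.val_cast_of_lt (mem_range.1 hρ)]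

theorem hh_succ (x : E n p) (a : ZMod p) : hh x (a + 1) = hh x a + (lam x a - 1) := by
  have e1 := sum_range_succ (fun ρ : ℕ => ρ * (lam x (a + ρ) - 1)) p
  have e2 := sum_range_succ' (fun ρ : ℕ => ρ * (lam x (a + ρ) - 1)) p
  have e3 := sum_cyc (fun c => lam x c - 1) (a + 1)
  rw [sum_sub_distrib (s := univ), sum_lam] at e3
  simp only [sum_const, card_univ, ZMod.card, nsmul_eq_mul, mul_one, sub_self] at e3
  have e4 : ∑ ρ ∈ range p, ((ρ + 1 : ℕ) : ℝ) * (lam x (a + (ρ + 1 : ℕ)) - 1) =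
      ∑ ρ ∈ range p, (ρ : ℝ) * (lam x (a + 1 + ρ) - 1) +
        ∑ ρ ∈ range p, (lam x (a + 1 + ρ) - 1) := by
    rw [← sum_add_distrib]
    refine sum_congr rfl fun ρ _ => ?_
    rw [show a + ((ρ + 1 : ℕ) : ZMod p) = a + 1 + ρ by push_cast; ring]
    push_cast
    ring
  rw [e2, e4, e3, ZMod.natCast_self] at e1
  simp only [Nat.cast_zero, zero_mul, add_zero] at e1
  have := pp (p := p)
  rw [hh, hh, e1]
  field_simp

theorem psi_succ (x : E n p) (b : ℕ) : psi x (b + 1) = psi x b + lam x b := by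
  simp only [psi]
  push_cast
  rw [hh_succ]
  ring

theorem hh_abs (x : E n p) (a : ZMod p) : |hh x a| ≤ 2 * p := by
  have := pp (p := p)
  rw [hh, abs_div, abs_of_pos this, div_le_iff₀ this]
  refine (abs_sum_le_sum_abs _ _).trans ((sum_le_sum (g := fun ρ : ℕ =>
    p * (lam x (a + ρ) + 1)) fun ρ hρ => ?_).trans ?_)
  · have h1 : (ρ : ℝ) ≤ p := by exact_mod_cast (mem_range.1 hρ).le
    have h2 := lam_pos x (a + ρ)
    rw [abs_mul, Nat.abs_cast]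
    exact mul_le_mul h1 (abs_le.2 ⟨by linarith, by linarith⟩) (abs_nonneg _) this.le
  · rw [← mul_sum, sum_cyc (fun c => lam x c + 1), sum_add_distrib, sum_lam]
    simp only [sum_const, card_univ, ZMod.card, nsmul_eq_mul, mul_one]
    linarith

theorem psi_mono (x : E n p) : Monotone (psi x) :=
  monotone_nat_of_le_succ fun b => by rw [psi_succ]; linarith [lam_pos x b]

theorem exists_idx (x : E n p) {τ : ℝ} (h0 : -1 ≤ τ) (h1 : τ ≤ 0) :
    ∃ b, b + 1 < 6 * p ∧ psi x b ≤ τ ∧ τ ≤ psi x (b + 1) := by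
  classical
  have p1 : (1 : ℝ) ≤ p := by exact_mod_cast Nat.pos_of_ne_zero (NeZero.ne p)
  have p2 : 0 < p := Nat.pos_of_ne_zero (NeZero.ne p)
  have e : ∃ b, τ ≤ psi x (b + 1) := ⟨5 * p, by
    have := abs_le.1 (hh_abs x ((5 * p + 1 : ℕ) : ZMod p))
    simp only [psi]
    push_cast at this ⊢
    linarith [this.1]⟩
  refine ⟨Nat.find e, ?_, ?_, Nat.find_spec e⟩
  · have : Nat.find e ≤ 5 * p - 1 := Nat.find_min' e (by
      rw [Nat.sub_add_cancel (by omega)]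
      have := abs_le.1 (hh_abs x ((5 * p : ℕ) : ZMod p))
      simp only [psi]
      push_cast at this ⊢
      linarith [this.1])
    omega
  · rcases h : Nat.find e with _ | b
    · have := abs_le.1 (hh_abs x ((0 : ℕ) : ZMod p))
      simp only [psi]
      push_cast at this ⊢
      linarith [this.2]
    · exact (not_le.1 (Nat.find_min e (m := b) (by omega))).le

theorem tele (A : ℕ → ℝ) (G : ℕ → ℝ → ℝ) (h0 : ∀ b, G b 0 = 0) (h1 : ∀ b, G b 1 = A (b + 1) - A b)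
    (v : ℕ → ℝ) {b m : ℕ} (hb : b < m) (v1 : ∀ c < b, v c = 1) (v0 : ∀ c, b < c → v c = 0) :
    A 0 + ∑ c ∈ range m, G c (v c) = A b + G b (v b) := by
  rw [← sum_subset (range_subset_range.2 (Nat.succ_le_of_lt hb)) fun c _ hc => by
    rw [v0 c (by simpa using hc), h0], sum_range_succ,
    sum_congr rfl fun c hc => by rw [v1 c (mem_range.1 hc), h1], sum_range_sub]
  ring

theorem vv_one (x : E n p) {τ : ℝ} {b : ℕ} (h : psi x b ≤ τ) : ∀ c < b, vv x τ c = 1 := by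
  intro c hc
  have := psi_mono x (Nat.succ_le_of_lt hc)
  rw [psi_succ] at this
  exact cl_hi ((one_le_div (lam_pos x _)).2 (by linarith))

theorem vv_zero (x : E n p) {τ : ℝ} {b : ℕ} (h : τ ≤ psi x (b + 1)) :
    ∀ c, b < c → vv x τ c = 0 := fun c hc =>
  cl_lo (div_nonpos_of_nonpos_of_nonneg (by linarith [psi_mono x (Nat.succ_le_of_lt hc)])
    (lam_pos x _).le)

theorem F_val (x : E n p) {τ : ℝ} {b : ℕ} (hb : b < 6 * p) (h1 : psi x b ≤ τ)
    (h2 : τ ≤ psi x (b + 1)) (j : Fin 3) : F x τ j = P x j b + D x j b (vv x τ b) := by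
  refine tele (P x j) (D x j) (fun b => ?_) (fun b => ?_) _ hb (vv_one x h1) (vv_zero x h2)
  · fin_cases j <;> simp [D, d0]
  · fin_cases j <;> simp [D, d0, P, p0, pow_succ] <;> ring

theorem sum_vv (x : E n p) {τ : ℝ} (h0 : -1 ≤ τ) (h1 : τ ≤ 0) :
    psi x 0 + ∑ b ∈ range (6 * p), lam x b * vv x τ b = τ := by
  obtain ⟨b, hb, h1, h2⟩ := exists_idx x h0 h1
  have hl := lam_pos x b
  rw [tele (psi x) (fun b v => lam x b * v) (fun b => mul_zero _) (fun b => by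
    rw [psi_succ]; ring) _ (by omega) (vv_one x h1) (vv_zero x h2), vv,
    cl_mid (div_nonneg (by linarith) hl.le) ((div_le_one hl).2 (by rw [psi_succ] at h2; linarith))]
  field_simp
  ring

theorem lam_sh (x : E n p) (a : ZMod p) : lam (sh x) (a + 1) = lam x a := by
  have e : ∀ a, w (sh x) (a + 1) = w x a := fun a => by
    simp only [w, ell, s_sh]
    rw [show a + 1 - 1 = a - 1 + 1 by ring, s_sh]
  simp only [lam, e]
  rw [← Equiv.sum_comp (Equiv.addRight 1) (w (sh x))]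
  simp only [Equiv.coe_addRight, e]

theorem psi_sh (x : E n p) (b : ℕ) : psi (sh x) (b + 1) = psi x b + 1 := by
  have e : ∀ ρ : ℕ, lam (sh x) ((b : ZMod p) + 1 + ρ) = lam x (b + ρ) := fun ρ => by
    rw [add_right_comm, lam_sh]
  simp only [psi, hh]
  push_cast
  simp only [e]
  ring

theorem F_sh (x : E n p) (j : Fin 3) : F (sh x) 0 j = -F x (-1) j := by
  obtain ⟨b, hb, h1, h2⟩ := exists_idx x (τ := -1) le_rfl (by norm_num)
  rw [F_val x (by omega) h1 h2, F_val (sh x) hb (by rw [psi_sh]; linarith)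
    (by rw [psi_sh]; linarith)]
  have e1 : s (sh x) (((b + 1 : ℕ) : ZMod p) - 1) = s x (b - 1) := by
    rw [← s_sh x]; congr 1; push_cast; ring
  have e2 : s (sh x) ((b + 1 : ℕ) : ZMod p) = s x b := by rw [← s_sh x, Nat.cast_succ]
  have e3 : vv (sh x) 0 (b + 1) = vv x (-1) b := by
    simp only [vv, psi_sh]
    push_cast
    rw [lam_sh]
    congr 2
    ring
  simp only [P, D, e1, e2, e3]
  ring

theorem F_cont (τ : ℝ) (j : Fin 3) : Continuous fun x : E n p => F x τ j := by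
  have hs := fun a => s_cont (n := n) (p := p) a
  have hw : ∀ a, Continuous fun x : E n p => w x a := fun a => by
    unfold w ell; fun_prop
  have hl : ∀ a, Continuous fun x : E n p => lam x a := fun a =>
    (continuous_const.mul (hw a)).div (continuous_finsetSum _ fun c _ => hw c)
      fun x => (W_pos x).ne'
  have hv : ∀ b, Continuous fun x : E n p => vv x τ b := fun b => by
    refine cl_cont.comp (Continuous.div ?_ (hl b) fun x => (lam_pos x _).ne')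
    unfold psi hh
    fun_prop
  unfold F P D p0 d0
  fin_cases j <;> simp <;> fun_prop

theorem Q_bd {σ' σ v : ℝ} (h1 : 0 ≤ σ' ∧ σ' ≤ 1) (h2 : 0 ≤ σ ∧ σ ≤ 1) (h3 : 0 ≤ v ∧ v ≤ 1)
    (h : σ' * σ = 0) : (∀ j, |p0 σ' j + d0 σ' σ v j| ≤ 1) ∧
      ∃ j, 2 / 25 ≤ |p0 σ' j + d0 σ' σ v j| := by
  obtain ⟨a1, a2⟩ := h1
  obtain ⟨b1, b2⟩ := h2
  obtain ⟨c1, c2⟩ := h3
  have key : ∀ {σ v : ℝ}, 0 ≤ σ → σ ≤ 1 → 0 ≤ v → v ≤ 1 → |1 - 2 * (v * (1 - σ))| ≤ 1 ∧
      |(1 - v) * (v * (1 - σ))| ≤ 1 ∧ |σ * (v * (1 - σ))| ≤ 1 ∧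
      (2 / 25 ≤ |1 - 2 * (v * (1 - σ))| ∨ 2 / 25 ≤ |(1 - v) * (v * (1 - σ))| ∨
        2 / 25 ≤ |σ * (v * (1 - σ))|) := by
    intro σ v b1 b2 c1 c2
    have m0 : 0 ≤ v * (1 - σ) := mul_nonneg c1 (by linarith)
    have m1 : v * (1 - σ) ≤ 1 := by nlinarith
    refine ⟨abs_le.2 ⟨by linarith, by linarith⟩, abs_le.2 ⟨by nlinarith, by nlinarith⟩,
      abs_le.2 ⟨by nlinarith, by nlinarith⟩, ?_⟩
    by_contra hn
    push Not at hn
    have e1 := abs_lt.1 hn.1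
    have e2 := (abs_lt.1 hn.2.1).2
    have e3 := (abs_lt.1 hn.2.2).2
    have e4 : 1 - v < 1 / 5 := by nlinarith
    have e5 : σ < 1 / 5 := by nlinarith
    nlinarith
  rcases mul_eq_zero.1 h with rfl | rfl
  · obtain ⟨k1, k2, k3, k4⟩ := key b1 b2 c1 c2
    have e0 : p0 0 0 + d0 0 σ v 0 = 1 - 2 * (v * (1 - σ)) := by simp [p0, d0]; ring
    have e1 : p0 0 1 + d0 0 σ v 1 = (1 - v) * (v * (1 - σ)) := by simp [p0, d0]; ring
    have e2 : p0 0 2 + d0 0 σ v 2 = -(σ * (v * (1 - σ))) := by simp [p0, d0]; ring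
    refine ⟨Fin.forall_fin_succ.2 ⟨e0 ▸ k1, Fin.forall_fin_two.2 ⟨e1 ▸ k2, ?_⟩⟩, ?_⟩
    · rw [← abs_neg, ← e2] at k3; exact k3
    · rcases k4 with k | k | k
      exacts [⟨0, e0 ▸ k⟩, ⟨1, e1 ▸ k⟩, ⟨2, by rwa [e2, abs_neg]⟩]
  · obtain ⟨k1, k2, k3, k4⟩ := key a1 a2 (v := 1 - v) (by linarith) (by linarith)
    have e0 : p0 σ' 0 + d0 σ' 0 v 0 = -(1 - 2 * ((1 - v) * (1 - σ'))) := by simp [p0, d0]; ring
    have e1 : p0 σ' 1 + d0 σ' 0 v 1 = (1 - (1 - v)) * ((1 - v) * (1 - σ')) := by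
      simp [p0, d0]; ring
    have e2 : p0 σ' 2 + d0 σ' 0 v 2 = σ' * ((1 - v) * (1 - σ')) := by simp [p0, d0]; ring
    refine ⟨Fin.forall_fin_succ.2 ⟨?_, Fin.forall_fin_two.2 ⟨e1 ▸ k2, e2 ▸ k3⟩⟩, ?_⟩
    · rw [← abs_neg, ← e0] at k1; exact k1
    · rcases k4 with k | k | k
      exacts [⟨0, by rwa [e0, abs_neg]⟩, ⟨1, e1 ▸ k⟩, ⟨2, e2 ▸ k⟩]

theorem d0_lip {σ' σ v v' : ℝ} (h1 : 0 ≤ σ' ∧ σ' ≤ 1) (h2 : 0 ≤ σ ∧ σ ≤ 1) (h3 : 0 ≤ v')
    (h4 : v' ≤ v) (h5 : v ≤ 1) (h : σ' * σ = 0) (j : Fin 3) :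
    |d0 σ' σ v j - d0 σ' σ v' j| ≤ 2 * (1 - σ - σ') * (v - v') := by
  obtain ⟨a1, a2⟩ := h1
  obtain ⟨b1, b2⟩ := h2
  have m : 0 ≤ (1 - σ - σ') * (v - v') :=
    mul_nonneg (by rcases mul_eq_zero.1 h with e | e <;> linarith) (by linarith)
  have e0 : d0 σ' σ v 0 - d0 σ' σ v' 0 = -2 * ((1 - σ - σ') * (v - v')) := by simp [d0]; ring
  have e1 : d0 σ' σ v 1 - d0 σ' σ v' 1 = (1 - v - v') * ((1 - σ - σ') * (v - v')) := by
    simp [d0]; ring
  have e2 : d0 σ' σ v 2 - d0 σ' σ v' 2 = -(σ + σ') * ((1 - σ - σ') * (v - v')) := by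
    simp [d0]; linear_combination (-2 * (v - v')) * h
  revert j
  refine Fin.forall_fin_succ.2 ⟨?_, Fin.forall_fin_two.2 ⟨?_, ?_⟩⟩
  · rw [e0]; exact abs_le.2 ⟨by linarith, by linarith⟩
  · change |d0 σ' σ v 1 - d0 σ' σ v' 1| ≤ _
    rw [e1]; exact abs_le.2 ⟨by nlinarith, by nlinarith⟩
  · change |d0 σ' σ v 2 - d0 σ' σ v' 2| ≤ _
    rw [e2]; exact abs_le.2 ⟨by nlinarith, by nlinarith⟩

theorem F_bd {x : E n p} (hx : x ∈ S n p n) :
    (∀ j, |F x 0 j| ≤ 1) ∧ ∃ j, 2 / 25 ≤ |F x 0 j| := by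
  obtain ⟨b, hb, h1, h2⟩ := exists_idx x (τ := 0) (by norm_num) le_rfl
  have e : ∀ j, |F x 0 j| = |p0 (s x (b - 1)) j + d0 (s x (b - 1)) (s x b) (vv x 0 b) j| :=
    fun j => by rw [F_val x (by omega) h1 h2, P, D, ← mul_add, abs_mul]; simp
  simp only [e]
  exact Q_bd (s_01 _ _) (s_01 _ _) ⟨cl_nonneg _, cl_le _⟩ (s_mul' hx _)

theorem F_lip {x : E n p} (hx : x ∈ S n p n) (hn : 225 * (n + 1) ≤ p) (j : Fin 3) :
    |F x 0 j - F x (-1) j| ≤ 1 / 10 := by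
  have hp := pp (p := p)
  have hW : ∑ c, w x c ≤ p / 20 := by
    have h1 := sum_ell hx
    have h2 : (225 * (n + 1) : ℝ) ≤ p := by exact_mod_cast hn
    simp only [w, fun a => abs_of_nonneg (ell_nonneg hx a), sum_add_distrib, sum_const, card_univ,
      ZMod.card, nsmul_eq_mul]
    linarith
  have hl : ∀ a, 2 * ell x a ≤ lam x a / 10 := fun a => by
    have h1 := W_pos x
    have h2 := w_pos x a
    have h3 : ell x a ≤ w x a := by unfold w; linarith [le_abs_self (ell x a)]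
    have : 20 * w x a ≤ lam x a := by rw [lam, le_div_iff₀ h1]; nlinarith
    linarith
  have e0 := sum_vv x (τ := 0) (by norm_num) le_rfl
  have e1 := sum_vv x (τ := -1) le_rfl (by norm_num)
  rw [F, F, add_sub_add_left_eq_sub, ← sum_sub_distrib]
  refine (abs_sum_le_sum_abs _ _).trans ((sum_le_sum (g := fun b : ℕ =>
    (lam x b * vv x 0 b - lam x b * vv x (-1) b) / 10) fun b _ => ?_).trans ?_)
  · have hv : vv x (-1) b ≤ vv x 0 b :=
      cl_mono (div_le_div_of_nonneg_right (by linarith) (lam_pos x _).le)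
    rw [D, D, ← mul_sub, abs_mul, abs_pow, abs_neg, abs_one, one_pow, one_mul]
    refine (d0_lip (v := vv x 0 b) (v' := vv x (-1) b) (s_01 _ _) (s_01 _ _) (cl_nonneg _) hv
      (cl_le _) (s_mul' hx _) j).trans ?_
    have := hl b
    simp only [ell] at this
    nlinarith
  · rw [← sum_div, sum_sub_distrib]
    linarith

theorem F_sep {x : E n p} (hx : x ∈ S n p n) (hn : 225 * (n + 1) ≤ p) :
    ∃ j, 1 / 20 ≤ |F x 0 j - F (sh x) 0 j| := by
  obtain ⟨j, hj⟩ := (F_bd hx).2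
  have := abs_le.1 (F_lip hx hn j)
  refine ⟨j, ?_⟩
  rw [F_sh]
  rcases le_abs.1 hj with h | h
  · exact le_abs.2 (Or.inl (by linarith [this.2]))
  · exact le_abs.2 (Or.inr (by linarith [this.1]))

end Pool.Agent.H.MP_4d0e60_an
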