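import Pool.Agent.H.MP_4d0e60_an.B

namespace Pool.Agent.H.MP_4d0e60_an

open Pool.Agent.Lib.helper28.Zp Finset unitInterval

variable {n p : ℕ} [NeZero p]

theorem dold (hp : 1 < p) {k : ℕ} (f : S n p n → E k p) (hf : Continuous f)
    (hS : ∀ x, f x ∈ S k p k) (he : ∀ x y : S n p n, y.1 = sh x.1 → f y = sh (f x)) : n ≤ k := by
  classical
  by_contra hk
  have : CompactSpace (S n p n) := isCompact_iff_compactSpace.1 S_compact
  have k0 : (0 : ℝ) < 1 / (k + 1) := by positivity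
  obtain ⟨δ, hδ, hu⟩ := Metric.uniformContinuous_iff.1
    (CompactSpace.uniformContinuous_of_continuous hf) _ k0
  let Q : E n p → Set ℕ := fun x => {t | ∃ (h : x ∈ S n p n) (i : Fin (k + 1)) (c : ZMod p),
    1 / (k + 1) ≤ f ⟨x, h⟩ (i, c) ∧ t = i}
  have ch : ∀ x, ∃ c : ZMod p, ∀ h : x ∈ S n p n, ∃ i : Fin (k + 1),
      1 / (k + 1) ≤ f ⟨x, h⟩ (i, c) ∧ sInf (Q x) = i := by
    intro x
    by_cases hx : x ∈ S n p n
    · obtain ⟨i, c, h⟩ := exists_big (hS ⟨x, hx⟩)
      obtain ⟨_, i, c, h⟩ := Nat.sInf_mem (s := Q x) ⟨_, hx, i, c,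
        by rw [div_le_iff₀ (by positivity)]; linarith, rfl⟩
      exact ⟨c, fun _ => ⟨i, h⟩⟩
    · exact ⟨0, fun h => absurd h hx⟩
  choose g hg using ch
  have uq : ∀ {y z : E k p} {i c c'}, y ∈ S k p k → 1 / ((k : ℝ) + 1) ≤ y (i, c) →
      1 / ((k : ℝ) + 1) ≤ z (i, c') → dist y z < 1 / (k + 1) → c = c' := by
    intro y z i c c' hy h1 h2 h3
    by_contra e
    have e1 := (mul_eq_zero.1 (hy.2.2.1 i c c' e)).resolve_left (k0.trans_le h1).ne'
    have e2 := (dist_le_pi_dist y z (i, c')).trans_lt h3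
    rw [e1, Real.dist_eq, abs_lt] at e2
    linarith [e2.1]
  refine tucker (n := n) hp (half_pos hδ) (fun x => sInf (Q x)) g (fun x hx => ?_)
    (fun x hx => ?_) fun x hx y hy hd e => ?_
  · have e := he ⟨x, hx⟩ ⟨sh x, S_sh hx⟩ rfl
    have eQ : Q (sh x) = Q x := by
      ext t
      constructor
      · rintro ⟨_, i, c, h, rfl⟩
        exact ⟨hx, i, c - 1, by rw [e] at h; exact h, rfl⟩
      · rintro ⟨_, i, c, h, rfl⟩
        exact ⟨S_sh hx, i, c + 1, by rw [e]; simpa [sh] using h, rfl⟩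
    refine ⟨by simp only [eQ], ?_⟩
    obtain ⟨i, h1, h2⟩ := hg x hx
    obtain ⟨i', h3, h4⟩ := hg (sh x) (S_sh hx)
    rw [eQ, h2] at h4
    obtain rfl : i = i' := Fin.ext h4
    rw [e] at h3
    exact sub_eq_iff_eq_add.1 (uq (hS _) h3 h1 (by simpa using k0))
  · obtain ⟨i, -, h⟩ := hg x hx
    have := i.2
    simp only [h]
    omega
  · obtain ⟨i, h1, h2⟩ := hg x hx
    obtain ⟨i', h3, h4⟩ := hg y hy
    simp only [h2, h4] at e
    obtain rfl : i = i' := Fin.ext e
    exact uq (hS _) h1 h3 (hu (a := ⟨x, hx⟩) (b := ⟨y, hy⟩) (hd.trans_lt (half_lt_self hδ)))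

variable [Fact (1 < p)]

noncomputable def G (y : E n p) (q : Fin (n + 1) × ZMod p) : ℝ :=
  max 0 (y q - (univ.erase q.2).sup' univ_nontrivial.erase_nonempty fun c => y (q.1, c))

theorem G_cont (q : Fin (n + 1) × ZMod p) : Continuous fun y : E n p => G y q :=
  continuous_const.max ((continuous_apply q).sub
    (Continuous.finset_sup'_apply _ fun _ _ => continuous_apply _))

theorem G_pos {y : E n p} {i c c'} (h : G y (i, c) ≠ 0) (hc : c' ≠ c) : y (i, c') < y (i, c) := by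
  have := le_sup' (fun c => y (i, c)) (mem_erase.2 ⟨hc, mem_univ c'⟩)
  by_contra h'
  exact h (max_eq_left (by simp only at this ⊢; linarith))

theorem G_S {x : E n p} (hx : x ∈ S n p n) : G x = x := by
  funext ⟨i, c⟩
  obtain ⟨b, hb, e⟩ := exists_mem_eq_sup' (univ_nontrivial.erase_nonempty (a := c))
    fun c => x (i, c)
  simp only [G, e]
  rcases mul_eq_zero.1 (hx.2.2.1 i c b (mem_erase.1 hb).1.symm) with h | h
  · rw [h, max_eq_left (by linarith [hx.1 (i, b)])]
  · rw [h, sub_zero, max_eq_right (hx.1 _)]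

theorem G_tie {y : E n p} (h : ¬ 0 < ∑ q, G y q) (i : Fin (n + 1)) :
    ∃ a : ZMod p × ZMod p, a.1 ≠ a.2 ∧ y (i, a.1) = y (i, a.2) := by
  obtain ⟨c, -, hc⟩ := exists_max_image univ (fun c => y (i, c)) univ_nonempty
  obtain ⟨b, hb, e⟩ := exists_mem_eq_sup' (univ_nontrivial.erase_nonempty (a := c))
    fun c => y (i, c)
  have h1 := single_le_sum (f := G y) (fun q _ => le_max_left _ _) (mem_univ (i, c))
  have h2 : y (i, c) - y (i, b) ≤ G y (i, c) := by simp only [G, e]; exact le_max_right _ _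
  exact ⟨(c, b), (mem_erase.1 hb).1.symm, le_antisymm (by simp only; linarith)
    (hc b (mem_univ _))⟩

theorem R_S {y : E n p} (h : 0 < ∑ q, G y q) : (fun q => G y q / ∑ q, G y q) ∈ S n p n := by
  refine ⟨fun q => div_nonneg (le_max_left _ _) h.le, by rw [← sum_div, div_self h.ne'],
    fun i c c' hc => ?_, fun j _ hj => absurd j.2 (by omega)⟩
  by_contra e
  have e1 := (div_ne_zero_iff.1 (left_ne_zero_of_mul e)).1
  have e2 := (div_ne_zero_iff.1 (right_ne_zero_of_mul e)).1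
  exact lt_asymm (G_pos e1 hc.symm) (G_pos e2 hc)

omit [Fact (1 < p)] in
theorem generic {m : ℕ} (hm : m < n) {A : (Fin m → ℝ) → E n p} (hA : ContDiff ℝ 1 A)
    (x0 : E n p) {ε : ℝ} (hε : 0 < ε) : ∃ v : E n p, ‖v‖ ≤ ε ∧ ∀ (u : Fin m → ℝ) (r : ℝ), ∃ i, ∀ a b,
      a ≠ b → (A u + v + r • x0) (i, a) ≠ (A u + v + r • x0) (i, b) := by
  let Θ : (Fin (n + 1) → ZMod p × ZMod p) → (Fin m → ℝ) × ℝ → Fin (n + 1) → ℝ := fun α z i =>
    (A z.1 (i, (α i).2) + z.2 * x0 (i, (α i).2) - A z.1 (i, (α i).1) - z.2 * x0 (i, (α i).1)) /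
      (((α i).1.val : ℝ) - (α i).2.val)
  have hΘ : ∀ α, ContDiff ℝ 1 (Θ α) := fun α => by
    have := fun q => (contDiff_pi.1 hA q).comp (contDiff_fst (E := Fin m → ℝ) (F := ℝ))
    exact contDiff_pi.2 fun i => ((((this _).add (contDiff_snd.mul contDiff_const)).sub
      (this _)).sub (contDiff_snd.mul contDiff_const)).div_const _
  have hd : Dense (⋃ α, Set.range (Θ α))ᶜ := by
    refine dense_compl_of_dimH_lt_finrank ?_
    rw [dimH_iUnion]
    refine (iSup_le fun α => (hΘ α).dimH_range_le).trans_lt ?_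
    simp only [Module.finrank_prod, Module.finrank_fintype_fun_eq_card, Fintype.card_fin,
      Module.finrank_self]
    exact_mod_cast Nat.succ_lt_succ hm
  have hp := pp (p := p)
  obtain ⟨w, hw, hw'⟩ := hd.exists_dist_lt 0 (div_pos hε hp)
  refine ⟨fun q => w q.1 * q.2.val, (pi_norm_le_iff_of_nonneg hε.le).2 fun q => ?_, fun u r => ?_⟩
  · have h1 : (q.2.val : ℝ) ≤ p := by exact_mod_cast (ZMod.val_lt q.2).le
    have h2 := norm_le_pi_norm w q.1
    rw [dist_comm, dist_zero_right, lt_div_iff₀ hp] at hw'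
    rw [norm_mul, Real.norm_natCast]
    exact (mul_le_mul h2 h1 (Nat.cast_nonneg _) (norm_nonneg _)).trans hw'.le
  · by_contra h
    push Not at h
    choose a b hab h using h
    refine hw (Set.mem_iUnion.2 ⟨fun i => (a i, b i), (u, r), funext fun i => ?_⟩)
    have e : ((a i).val : ℝ) - (b i).val ≠ 0 := sub_ne_zero.2 fun e =>
      hab i (ZMod.val_injective p (by exact_mod_cast e))
    have := h i
    simp only [Pi.add_apply, Pi.smul_apply, smul_eq_mul] at this
    simp only [Θ]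
    rw [div_eq_iff e]
    linarith

theorem null {m : ℕ} (hm : m < n) {g : (Fin m → I) → E n p} (hg : Continuous g)
    (gS : ∀ u, g u ∈ S n p n) {x0 : E n p} (h0 : x0 ∈ S n p n) :
    ∃ H : I × (Fin m → I) → E n p, Continuous H ∧ (∀ z, H z ∈ S n p n) ∧ (∀ u, H (0, u) = g u) ∧
      (∀ u, H (1, u) = x0) ∧ ∀ t u, g u = x0 → H (t, u) = x0 := by
  have hG : Continuous fun y : E n p => ∑ q, G y q := continuous_finsetSum _ fun q _ => G_cont q
  have e1 : ∀ x ∈ S n p n, ∑ q, G x q = 1 := fun x hx => by rw [G_S hx, hx.2.1]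
  obtain ⟨ε, hε, hO⟩ := S_compact.exists_thickening_subset_open
    (isOpen_lt continuous_const hG) (t := {y : E n p | 0 < ∑ q, G y q})
    fun x hx => by simp [e1 x hx]
  have near : ∀ x ∈ S n p n, ∀ y, ‖y - x‖ < ε → 0 < ∑ q, G y q := fun x hx y hy =>
    hO (Metric.mem_thickening_iff.2 ⟨x, hx, by rwa [dist_eq_norm]⟩)
  obtain ⟨A, hA, hA', -⟩ := (hg.comp (continuous_pi fun j => continuous_projIcc.comp
    (continuous_apply j) : Continuous fun (u : Fin m → ℝ) j =>
      Set.projIcc 0 1 zero_le_one (u j))).exists_contDiff_approx 1 (ε := fun _ => ε / 4)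
    continuous_const fun _ => by positivity
  obtain ⟨v, hv, hv'⟩ := generic hm hA x0 (ε := ε / 4) (by positivity)
  let β : (Fin m → I) → ℝ := fun u => min 1 (‖g u - x0‖ / (ε / 2))
  let d : (Fin m → I) → E n p := fun u => β u • (A (fun j => u j) + v - g u)
  have hd : ∀ u, ‖d u‖ < ε / 2 := fun u => by
    have h1 := hA' fun j => u j
    simp only [Function.comp, Set.projIcc_val, dist_eq_norm] at h1
    have h2 := norm_add_le (A (fun j => u j) - g u) v
    have h3 : 0 ≤ β u := le_min zero_le_one (by positivity)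
    simp only [d]
    rw [norm_smul, Real.norm_of_nonneg h3, add_sub_right_comm]
    exact (mul_le_of_le_one_left (norm_nonneg _) (min_le_left _ _)).trans_lt (by linarith)
  let K : I × (Fin m → I) → E n p := fun z => g z.2 + cl (2 * z.1) • d z.2 +
    cl (2 * z.1 - 1) • (x0 - (g z.2 + d z.2))
  have Kc : Continuous K := by
    have := cl_cont
    have := hA.continuous
    simp only [K, d, β]
    fun_prop
  have KO : ∀ z, 0 < ∑ q, G (K z) q := by
    rintro ⟨t, u⟩
    rcases le_total (2 * (t : ℝ)) 1 with h | h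
    · refine near _ (gS u) _ ?_
      simp only [K, cl_lo (sub_nonpos.2 h), zero_smul, add_zero, add_sub_cancel_left, norm_smul,
        Real.norm_of_nonneg (cl_nonneg _)]
      exact (mul_le_of_le_one_left (norm_nonneg _) (cl_le _)).trans_lt (by linarith [hd u])
    set r := cl (2 * t - 1)
    have r0 : 0 ≤ r := cl_nonneg _
    have r1 : r ≤ 1 := cl_le _
    have eK : K (t, u) = (1 - r) • (g u + d u) + r • x0 := by
      simp only [K, cl_hi h]; module
    rcases r1.eq_or_lt with e | e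
    · rw [eK, e, sub_self, zero_smul, zero_add, one_smul, e1 _ h0]; exact one_pos
    rcases lt_or_ge ‖g u - x0‖ (ε / 2) with h' | h'
    · refine near _ h0 _ ?_
      rw [show K (t, u) - x0 = (1 - r) • (g u - x0 + d u) by rw [eK]; module, norm_smul,
        Real.norm_of_nonneg (by linarith)]
      exact (mul_le_of_le_one_left (norm_nonneg _) (by linarith)).trans_lt
        ((norm_add_le _ _).trans_lt (by linarith [hd u]))
    by_contra hn
    obtain ⟨i, hi⟩ := hv' (fun j => u j) (r / (1 - r))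
    obtain ⟨a, ha, ha'⟩ := G_tie hn i
    have eβ : β u = 1 := min_eq_left ((one_le_div (by positivity)).2 h')
    have e2 : K (t, u) = (1 - r) • (A (fun j => u j) + v + (r / (1 - r)) • x0) := by
      rw [eK, smul_add _ _ (_ • x0), smul_smul, mul_div_cancel₀ _ (sub_pos.2 e).ne']
      simp [d, eβ]
    rw [e2] at ha'
    exact hi _ _ ha (mul_left_cancel₀ (sub_pos.2 e).ne' ha')
  have RS : ∀ z x, x ∈ S n p n → K z = x → (fun q => G (K z) q / ∑ q, G (K z) q) = x := by
    intro z x hx e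
    rw [e, e1 x hx, G_S hx]
    simp
  refine ⟨fun z q => G (K z) q / ∑ q, G (K z) q, continuous_pi fun q =>
    ((G_cont q).comp Kc).div (hG.comp Kc) fun z => (KO z).ne', fun z => R_S (KO z),
    fun u => RS _ _ (gS u) ?_, fun u => RS _ _ h0 ?_, fun t u e => RS _ _ h0 ?_⟩
  · simp [K, cl_lo]
  · have : cl 2 = 1 := cl_hi (by norm_num)
    have h2 : cl (2 - 1) = 1 := cl_hi (by norm_num)
    simp [K, this, h2]
  · simp [K, d, β, e]

theorem conn {m : ℕ} (hm : m < n) {A : Type} [TopologicalSpace A] (κ : A → E n p)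
    (hκ : Continuous κ) (κS : ∀ a, κ a ∈ S n p n) (Φ : S n p n → A) (hΦ : Continuous Φ)
    (e : ∀ a, Φ ⟨κ a, κS a⟩ = a) (a : A) : Subsingleton (HomotopyGroup.Pi m A a) := by
  have key : ∀ γ : GenLoop (Fin m) A a, GenLoop.Homotopic γ GenLoop.const := by
    intro γ
    obtain ⟨H, h1, h2, h3, h4, h5⟩ := null hm (hκ.comp γ.1.continuous) (fun u => κS _) (κS a)
    refine ⟨⟨⟨⟨fun z => Φ ⟨H z, h2 z⟩, hΦ.comp (h1.subtype_mk _)⟩, fun u => ?_, fun u => ?_⟩,
      fun t u hu => ?_⟩⟩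
    · exact (congrArg Φ (Subtype.ext (h3 u))).trans (e _)
    · exact (congrArg Φ (Subtype.ext (h4 u))).trans (e _)
    · have := γ.2 u hu
      exact (congrArg Φ (Subtype.ext (h5 t u (congrArg κ this)))).trans ((e _).trans this.symm)
  exact ⟨Quotient.ind₂ fun γ γ' => Quotient.sound ((key γ).trans (key γ').symm)⟩

end Pool.Agent.H.MP_4d0e60_an
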