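import Pool.Agent.H.MP_4d0e60_an.C

namespace Pool.Agent.H.MP_4d0e60_an

open Pool.Agent.Lib.helper28.Zp Finset

abbrev Om := ℝ × (ℕ × ℤ → ℝ) × (ℕ × Fin 3 × ℤ → ℝ)

def Tz (m : ℤ) (ω : Om) : Om :=
  (ω.1, fun z => ω.2.1 (z.1, z.2 + m), fun z => ω.2.2 (z.1, z.2.1, z.2.2 + m))

theorem Tz_add (m m' : ℤ) (ω : Om) : Tz m (Tz m' ω) = Tz (m + m') ω := by
  simp only [Tz, add_assoc]

theorem Tz_zero (ω : Om) : Tz 0 ω = ω := by simp only [Tz, add_zero]

theorem Tz_cont (m : ℤ) : Continuous (Tz m) := by unfold Tz; fun_prop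

def T0 : Om ≃ₜ Om where
  toFun := Tz (-1)
  invFun := Tz 1
  left_inv ω := by rw [Tz_add]; exact Tz_zero ω
  right_inv ω := by rw [Tz_add]; exact Tz_zero ω
  continuous_toFun := Tz_cont _
  continuous_invFun := Tz_cont _

def nn (p : ℕ) : ℕ := p / 225 - 1

section

variable {n p : ℕ} [NeZero p]

def R (q k : ZMod p) (x : E n p) : E n p := fun z => x (z.1, q * z.2 + k)

theorem R_mem {q : ZMod p} (hq : IsUnit q) (k : ZMod p) {x : E n p} (hx : x ∈ S n p n) :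
    R q k x ∈ S n p n := by
  have hi : Function.Injective fun c : ZMod p => q * c + k := fun a b e =>
    hq.mul_left_cancel (add_right_cancel e)
  refine ⟨fun z => hx.1 _, ?_, fun i c c' hc => hx.2.2.1 i _ _ fun e => hc (hi e),
    fun j _ hj => absurd j.2 (by omega)⟩
  rw [← hx.2.1, Fintype.sum_prod_type, Fintype.sum_prod_type]
  exact sum_congr rfl fun i _ => Function.Bijective.sum_comp
    (Finite.injective_iff_bijective.1 hi) fun c => x (i, c)

noncomputable def Ph (p : ℕ) [NeZero p] (x : E (nn p) p) : Om :=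
  (1 / p, fun z => if h : z.1 < nn p + 1 then x (⟨z.1, h⟩, z.2) else 0,
    fun z => if 0 < z.1 ∧ z.1 < p then F (R z.1 z.2.2 x) 0 z.2.1 else 0)

theorem Ph_R (m : ℤ) (x : E (nn p) p) : Ph p (R 1 m x) = Tz m (Ph p x) := by
  have : ∀ (q : ZMod p) (k : ℤ), R q k (R 1 m x) = R q ((k + m : ℤ) : ZMod p) x := fun q k => by
    funext z; simp [R, add_assoc]
  simp only [Ph, Tz, this]
  simp [R]

theorem Ph_sh (x : E (nn p) p) : Ph p (sh x) = Tz (-1) (Ph p x) := by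
  rw [← Ph_R]
  congr 1
  funext z
  simp [R, sh, sub_eq_add_neg]

theorem Ph_cont : Continuous (Ph p) := by
  refine continuous_const.prodMk ((continuous_pi fun z => ?_).prodMk (continuous_pi fun z => ?_))
  · split_ifs <;> fun_prop
  · split_ifs
    · exact (F_cont _ _).comp (by unfold R; fun_prop)
    · exact continuous_const

def ka (p : ℕ) (ω : Om) : E (nn p) p := fun z => ω.2.1 (z.1, z.2.val)

theorem ka_Ph (x : E (nn p) p) : ka p (Ph p x) = x := by
  funext z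
  simp [ka, Ph, Nat.lt_succ_iff.1 z.1.2]

omit [NeZero p] in
theorem unit_of (hp : p.Prime) {q : ℕ} (h0 : 0 < q) (h1 : q < p) : IsUnit (q : ZMod p) :=
  (ZMod.isUnit_iff_coprime q p).2 ((Nat.coprime_of_lt_prime h0.ne' h1 hp).symm)

end

def piece (p : ℕ) : Set Om :=
  {ω | ∃ _ : NeZero p, p.Prime ∧ 450 ≤ p ∧ ∃ x ∈ S (nn p) p (nn p), Ph p x = ω}

theorem piece_closed (p : ℕ) : IsClosed (piece p) := by
  by_cases h : p.Prime ∧ 450 ≤ p
  · have : NeZero p := ⟨h.1.ne_zero⟩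
    have : piece p = Ph p '' S (nn p) p (nn p) := by
      ext ω
      exact ⟨fun ⟨_, _, _, h⟩ => h, fun h' => ⟨this, h.1, h.2, h'⟩⟩
    rw [this]
    exact (S_compact.image Ph_cont).isClosed
  · have : piece p = ∅ := Set.eq_empty_of_forall_notMem fun ω ⟨_, h1, h2, _⟩ => h ⟨h1, h2⟩
    rw [this]
    exact isClosed_empty

theorem piece_Tz (m : ℤ) {p : ℕ} {ω : Om} (h : ω ∈ piece p) : Tz m ω ∈ piece p := by
  obtain ⟨_, h1, h2, x, hx, rfl⟩ := h
  exact ⟨_, h1, h2, _, R_mem isUnit_one _ hx, Ph_R m x⟩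

def XX : Set Om := closure (⋃ p, piece p)

theorem XX_Tz (m : ℤ) {ω : Om} (h : ω ∈ XX) : Tz m ω ∈ XX :=
  map_mem_closure (Tz_cont m) h fun _ h =>
    let ⟨p, hp⟩ := Set.mem_iUnion.1 h
    Set.mem_iUnion.2 ⟨p, piece_Tz m hp⟩

def TT : XX ≃ₜ XX := T0.subtype fun ω => ⟨XX_Tz (-1), fun h => by
  have := XX_Tz 1 h
  rwa [show Tz 1 (T0 ω) = ω from T0.left_inv ω] at this⟩

theorem TT_iter (q : ℕ) (ω : XX) : (TT^[q] ω).1 = Tz (-q) ω := by
  induction q with
  | zero => exact (Tz_zero _).symm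
  | succ q ih =>
    rw [Function.iterate_succ_apply']
    change Tz (-1) (TT^[q] ω).1 = _
    rw [ih, Tz_add]
    congr 1
    push_cast
    ring

theorem XX_sub {C : Set Om} (hC : IsClosed C) (h : ∀ (p : ℕ) [NeZero p], p.Prime → 450 ≤ p →
    ∀ x ∈ S (nn p) p (nn p), Ph p x ∈ C) : XX ⊆ C :=
  closure_minimal (Set.iUnion_subset fun p _ ⟨_, h1, h2, x, hx, e⟩ => e ▸ h p h1 h2 x hx) hC

theorem XX_compact : IsCompact XX := by
  have hK : IsCompact (Set.Icc (0 : ℝ) 1 ×ˢ (Set.univ.pi fun _ : ℕ × ℤ => Set.Icc (0 : ℝ) 1) ×ˢ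
      Set.univ.pi fun _ : ℕ × Fin 3 × ℤ => Set.Icc (-1 : ℝ) 1) :=
    isCompact_Icc.prod ((isCompact_univ_pi fun _ => isCompact_Icc).prod
      (isCompact_univ_pi fun _ => isCompact_Icc))
  refine hK.of_isClosed_subset isClosed_closure (XX_sub hK.isClosed fun p _ hp _ x hx => ?_)
  refine ⟨⟨by simp [Ph], by simpa [Ph] using Nat.cast_inv_le_one p⟩, fun z _ => ?_, fun z _ => ?_⟩
  · simp only [Ph]
    split_ifs
    · exact ⟨hx.1 _, hx.2.1 ▸ single_le_sum (fun i _ => hx.1 i) (mem_univ _)⟩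
    · simp
  · simp only [Ph]
    split_ifs with h
    · exact abs_le.1 ((F_bd (R_mem (unit_of hp h.1 h.2) _ hx)).1 _)
    · simp

theorem per {ω : Om} (h : ω ∈ XX) {q : ℕ} (hq : 0 < q) (e : Tz (-q) ω = ω) :
    ∃ p, ω ∈ piece p ∧ p ∣ q := by
  have c1 : Continuous fun ω : Om => ω.1 := continuous_fst
  have hC : ω ∈ {ω : Om | 0 ≤ ω.1} := XX_sub (isClosed_le continuous_const c1)
    (fun p _ _ _ x _ => by simp [Ph]) h
  have hB : ω ∈ {ω : Om | 1 ≤ ω.1 * q} ∪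
      ⋃ j, {ω : Om | 1 / 20 ≤ |ω.2.2 (q, j, 0) - ω.2.2 (q, j, 0 + -q)|} := by
    refine XX_sub ((isClosed_le continuous_const (c1.mul continuous_const)).union
      (isClosed_iUnion_of_finite fun j => isClosed_le continuous_const (by fun_prop)))
      (fun p _ hp h2 x hx => ?_) h
    rcases le_or_gt p q with h3 | h3
    · left
      have : (p : ℝ) ≤ q := by exact_mod_cast h3
      change 1 ≤ 1 / (p : ℝ) * q
      rwa [one_div_mul_eq_div, one_le_div pp]
    · right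
      obtain ⟨j, hj⟩ := F_sep (R_mem (unit_of hp hq h3) ((0 : ℤ) : ZMod p) hx)
        (by unfold nn; omega)
      refine Set.mem_iUnion.2 ⟨j, ?_⟩
      have : sh (R q ((0 : ℤ) : ZMod p) x) = R q ((0 + -q : ℤ) : ZMod p) x := by
        funext z
        simp only [R, sh]
        congr 2
        push_cast
        ring
      simpa only [Ph, Set.mem_ofPred_eq, hq, h3, and_self, if_true, this] using hj
  have h0 : 0 < ω.1 := lt_of_le_of_ne hC fun e0 => by
    rcases hB with hB | hB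
    · simp only [Set.mem_ofPred_eq, ← e0] at hB
      linarith
    · obtain ⟨j, hj⟩ := Set.mem_iUnion.1 hB
      have := congrFun (congrArg (fun ω : Om => ω.2.2) e) (q, j, 0)
      simp only [Tz] at this
      simp only [Set.mem_ofPred_eq, this, sub_self, abs_zero] at hj
      linarith
  have hA : ∀ p' : ℕ, ω ∈ {ω : Om | ω.1 * (p' + 1) ≤ 1} ∪ {ω : Om | 1 ≤ ω.1 * (p' - 1)} ∪
      piece p' := by
    intro p'
    refine XX_sub (((isClosed_le (c1.mul continuous_const) continuous_const).union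
      (isClosed_le continuous_const (c1.mul continuous_const))).union (piece_closed p'))
      (fun p _ hp h2 x hx => ?_) h
    rcases lt_trichotomy p' p with h3 | rfl | h3
    · left; left
      have : (p' : ℝ) + 1 ≤ p := by exact_mod_cast h3
      change 1 / (p : ℝ) * (p' + 1) ≤ 1
      rwa [one_div_mul_eq_div, div_le_one pp]
    · exact Or.inr ⟨_, hp, h2, x, hx, rfl⟩
    · left; right
      have : (p : ℝ) + 1 ≤ p' := by exact_mod_cast h3
      change 1 ≤ 1 / (p : ℝ) * (p' - 1)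
      rw [one_div_mul_eq_div, one_le_div pp]
      linarith
  have h1 := Nat.floor_le (one_div_pos.2 h0).le
  have h2 := Nat.lt_floor_add_one (1 / ω.1)
  rw [le_div_iff₀ h0] at h1
  rw [div_lt_iff₀ h0] at h2
  rcases hA ⌊1 / ω.1⌋₊ with (h3 | h3) | h3
  · simp only [Set.mem_ofPred_eq] at h3; linarith
  · simp only [Set.mem_ofPred_eq] at h3; linarith
  refine ⟨_, h3, ?_⟩
  generalize ⌊1 / ω.1⌋₊ = p at h3
  obtain ⟨_, -, -, x, hx, rfl⟩ := h3
  obtain ⟨i, c, hc⟩ := exists_big hx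
  have e1 := congrFun (congrArg (ka p) ((Ph_R _ x).trans e)) (i, c)
  simp only [ka_Ph, R] at e1
  have e2 : x (i, c) ≠ 0 := fun e => by rw [e] at hc; linarith
  have e3 : 1 * c + ((-(q : ℤ) : ℤ) : ZMod p) = c := by_contra fun e =>
    mul_ne_zero (e1 ▸ e2) e2 (hx.2.2.1 i _ _ e)
  exact (ZMod.natCast_eq_zero_iff q p).1 (by simpa using e3)

theorem free (ω : XX) : TT ω ≠ ω := fun e => by
  obtain ⟨p, ⟨_, hp, -⟩, h⟩ := per ω.2 one_pos ((TT_iter 1 ω).symm.trans (congrArg _ e))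
  exact hp.one_lt.ne' (Nat.dvd_one.1 h)

theorem model {p : ℕ} [NeZero p] (hp : p.Prime) (h : 450 ≤ p) :
    ∃ (κ : {ω : XX | TT^[p] ω = ω} → E (nn p) p) (κS : ∀ a, κ a ∈ S (nn p) p (nn p))
      (Φ : S (nn p) p (nn p) → {ω : XX | TT^[p] ω = ω}), Continuous κ ∧ Continuous Φ ∧
      (∀ a, Φ ⟨κ a, κS a⟩ = a) ∧ (∀ a b : {ω : XX | TT^[p] ω = ω}, (b : XX) = TT a → κ b = sh (κ a)) ∧
      ∀ x y, y.1 = sh x.1 → (Φ y : XX) = TT (Φ x) := by
  have key : ∀ a : {ω : XX | TT^[p] ω = ω}, ∃ x ∈ S (nn p) p (nn p), Ph p x = a.1.1 := by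
    intro a
    obtain ⟨p', ⟨_, hp', -, hx⟩, hd⟩ := per a.1.2 hp.pos
      ((TT_iter p a.1).symm.trans (congrArg _ a.2))
    obtain rfl := (Nat.prime_dvd_prime_iff_eq hp' hp).1 hd
    exact hx
  have mem : ∀ x : S (nn p) p (nn p), Ph p x ∈ XX := fun x =>
    subset_closure (Set.mem_iUnion.2 ⟨p, _, hp, h, x, x.2, rfl⟩)
  refine ⟨fun a => ka p a.1.1, fun a => ?_, fun x => ⟨⟨Ph p x, mem x⟩, Subtype.ext ?_⟩,
    by unfold ka; fun_prop, ((Ph_cont.comp continuous_subtype_val).subtype_mk _).subtype_mk _,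
    fun a => Subtype.ext (Subtype.ext ?_), fun a b e => ?_, fun x y e => Subtype.ext ?_⟩
  · obtain ⟨x, hx, e⟩ := key a
    simp only [← e, ka_Ph, hx]
  · rw [TT_iter, ← Ph_R]
    congr 1
    funext z
    simp [R]
  · obtain ⟨x, hx, e⟩ := key a
    simp only [← e, ka_Ph]
  · obtain ⟨x, hx, e'⟩ := key a
    have : b.1.1 = Tz (-1) a.1.1 := congrArg Subtype.val e
    simp only [this, ← e', ← Ph_sh, ka_Ph]
  · change Ph p y = Tz (-1) (Ph p x)
    rw [e, Ph_sh]

end Pool.Agent.H.MP_4d0e60_an
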